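import Pool.Agent.Y826.ZG.Defs

/-!
# Project Y826/Z, part Z: elementary lemmas (divisor sums, tuples)
-/

set_option autoImplicit false

namespace Pool.Agent.Y826.ZG.Y202

open Finset
open Pool.Agent.Y826.Z hiding Cd dl Lc Du SS Soff Hyp Cls
open Pool.Agent.Y826.ZL (Cd dl)

theorem harm_le (N : ℕ) : ∑ n ∈ Icc 1 N, (1 : ℝ) / n ≤ 1 + Real.log N := by
  have h := harmonic_le_one_add_log N
  rw [harmonic_eq_sum_Icc] at h
  push_cast at h
  have e : ∑ n ∈ Icc 1 N, (1 / (n:ℝ)) = ∑ n ∈ Icc 1 N, ((n:ℝ))⁻¹ := by simp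
  rw [e]; exact h

theorem tau_mul_le (a b : ℕ) : tau (a * b) ≤ tau a * tau b := by
  unfold tau
  rw [Nat.divisors_mul]
  exact_mod_cast Finset.card_mul_le

theorem tau_nonneg (n : ℕ) : 0 ≤ tau n := Nat.cast_nonneg _

theorem one_le_tau {n : ℕ} (hn : n ≠ 0) : 1 ≤ tau n := by
  unfold tau
  have : 0 < n.divisors.card := Finset.card_pos.2 ⟨1, Nat.one_mem_divisors.2 hn⟩
  exact_mod_cast this

/-- the hyperbola bound -/
theorem hyper_le (N : ℕ) (F : ℕ → ℝ) (hF : ∀ n, 0 ≤ F n)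
    (hsub : ∀ a b, 1 ≤ a → 1 ≤ b → F (a * b) ≤ F a * F b) :
    ∑ n ∈ Icc 1 N, tau n * F n ≤ (∑ n ∈ Icc 1 N, F n) ^ 2 := by
  classical
  calc ∑ n ∈ Icc 1 N, tau n * F n
      = ∑ n ∈ Icc 1 N, ∑ i ∈ n.divisorsAntidiagonal, F (i.1 * i.2) := by
        refine Finset.sum_congr rfl fun n hn => ?_
        have h2 : ∀ i ∈ n.divisorsAntidiagonal, F (i.1 * i.2) = F n := by
          intro i hi
          rw [(Nat.mem_divisorsAntidiagonal.1 hi).1]
        rw [Finset.sum_congr rfl h2, Finset.sum_const, nsmul_eq_mul]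
        unfold tau
        rw [← Nat.map_div_right_divisors, card_map]
    _ = ∑ x ∈ (Icc 1 N).sigma (fun n => n.divisorsAntidiagonal), F (x.2.1 * x.2.2) := by
        rw [Finset.sum_sigma]
    _ = ∑ y ∈ ((Icc 1 N).sigma (fun n => n.divisorsAntidiagonal)).image (fun x => x.2),
          F (y.1 * y.2) := by
        rw [Finset.sum_image]
        rintro ⟨n, i⟩ hx ⟨m, i'⟩ hy hxy
        dsimp only at hxy
        subst hxy
        have h1 := (mem_sigma.1 (Finset.mem_coe.1 hx)).2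
        have h2 := (mem_sigma.1 (Finset.mem_coe.1 hy)).2
        dsimp only at h1 h2
        have h3 := (Nat.mem_divisorsAntidiagonal.1 h1).1
        have h4 := (Nat.mem_divisorsAntidiagonal.1 h2).1
        have h5 : n = m := by rw [← h3, ← h4]
        subst h5
        rfl
    _ ≤ ∑ y ∈ Icc 1 N ×ˢ Icc 1 N, F (y.1 * y.2) := by
        refine Finset.sum_le_sum_of_subset_of_nonneg ?_ fun _ _ _ => hF _
        intro y hy
        rw [mem_image] at hy
        obtain ⟨⟨n, i⟩, hx, rfl⟩ := hy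
        rw [mem_sigma] at hx
        obtain ⟨hn, hi⟩ := hx
        dsimp only at hn hi
        rw [Nat.mem_divisorsAntidiagonal] at hi
        rw [mem_Icc] at hn
        obtain ⟨h1, h2⟩ := hi
        have h3 : i.1 ≠ 0 := by
          rintro h
          rw [h, zero_mul] at h1
          exact h2 h1.symm
        have h4 : i.2 ≠ 0 := by
          rintro h
          rw [h, mul_zero] at h1
          exact h2 h1.symm
        dsimp only
        rw [mem_product, mem_Icc, mem_Icc]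
        refine ⟨⟨by omega, ?_⟩, ⟨by omega, ?_⟩⟩
        · have := Nat.le_mul_of_pos_right i.1 (Nat.pos_of_ne_zero h4)
          omega
        · have := Nat.le_mul_of_pos_left i.2 (Nat.pos_of_ne_zero h3)
          omega
    _ ≤ ∑ y ∈ Icc 1 N ×ˢ Icc 1 N, F y.1 * F y.2 := by
        refine Finset.sum_le_sum fun y hy => ?_
        rw [mem_product, mem_Icc, mem_Icc] at hy
        exact hsub _ _ hy.1.1 hy.2.1
    _ = _ := by
        rw [sq, Finset.sum_mul_sum, Finset.sum_product]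

theorem tau1_sum (N : ℕ) : ∑ n ∈ Icc 1 N, tau n / n ≤ (1 + Real.log N) ^ 2 := by
  have h0 : 0 ≤ ∑ n ∈ Icc 1 N, (1 : ℝ) / n := Finset.sum_nonneg fun _ _ => by positivity
  calc ∑ n ∈ Icc 1 N, tau n / n = ∑ n ∈ Icc 1 N, tau n * (1 / (n : ℝ)) := by
        refine Finset.sum_congr rfl fun n _ => ?_
        ring
    _ ≤ (∑ n ∈ Icc 1 N, (1 : ℝ) / n) ^ 2 := by
        refine hyper_le N (fun n => 1 / (n : ℝ)) (fun n => by positivity) fun a b _ _ => ?_
        push_cast
        rw [one_div_mul_one_div]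
    _ ≤ _ := pow_le_pow_left₀ h0 (harm_le N) 2

theorem tau2_sum (N : ℕ) : ∑ n ∈ Icc 1 N, tau n ^ 2 / n ≤ (1 + Real.log N) ^ 4 := by
  have h0 : 0 ≤ ∑ n ∈ Icc 1 N, tau n / (n : ℝ) :=
    Finset.sum_nonneg fun n _ => div_nonneg (tau_nonneg n) (by positivity)
  calc ∑ n ∈ Icc 1 N, tau n ^ 2 / n = ∑ n ∈ Icc 1 N, tau n * (tau n / (n : ℝ)) := by
        refine Finset.sum_congr rfl fun n _ => ?_
        ring
    _ ≤ (∑ n ∈ Icc 1 N, tau n / (n : ℝ)) ^ 2 := by
        refine hyper_le N (fun n => tau n / (n : ℝ))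
          (fun n => div_nonneg (tau_nonneg n) (by positivity)) fun a b _ _ => ?_
        push_cast
        rw [div_mul_div_comm]
        exact div_le_div_of_nonneg_right (tau_mul_le a b) (by positivity)
    _ ≤ ((1 + Real.log N) ^ 2) ^ 2 := pow_le_pow_left₀ h0 (tau1_sum N) 2
    _ = _ := by ring

/-- `1 / φ(n) ≤ τ(n) / n` -/
theorem inv_tot_le {n : ℕ} (hn : n ≠ 0) : 1 / (n.totient : ℝ) ≤ tau n / n := by
  have hφ : 0 < n.totient := Nat.totient_pos.2 (Nat.pos_of_ne_zero hn)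
  have h1 : n ≤ n.divisors.card * n.totient := by
    calc n = ∑ d ∈ n.divisors, d.totient := (Nat.sum_totient n).symm
      _ ≤ ∑ d ∈ n.divisors, n.totient := by
          refine Finset.sum_le_sum fun d hd => ?_
          exact Nat.le_of_dvd hφ (Nat.totient_dvd_of_dvd (Nat.dvd_of_mem_divisors hd))
      _ = _ := by rw [Finset.sum_const, smul_eq_mul]
  have h2 : (0 : ℝ) < n := by exact_mod_cast Nat.pos_of_ne_zero hn
  have h3 : (0 : ℝ) < n.totient := by exact_mod_cast hφ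
  rw [div_le_div_iff₀ h3 h2, one_mul]
  unfold tau
  exact_mod_cast h1

theorem tau_prod_le {ι : Type} [DecidableEq ι] (s : Finset ι) (f : ι → ℕ) :
    tau (∏ i ∈ s, f i) ≤ ∏ i ∈ s, tau (f i) := by
  induction s using Finset.induction_on with
  | empty => simp [tau]
  | insert a s ha ih =>
    rw [Finset.prod_insert ha, Finset.prod_insert ha]
    exact (tau_mul_le _ _).trans (mul_le_mul_of_nonneg_left ih (tau_nonneg _))

theorem inv_tot_Pr_le {K : ℕ} {q : Fin K → ℕ} (hq : Pr q ≠ 0) :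
    1 / ((Pr q).totient : ℝ) ≤ ∏ j, (tau (q j) / (q j : ℝ)) := by
  refine (inv_tot_le hq).trans ?_
  rw [Finset.prod_div_distrib]
  unfold Pr
  rw [Nat.cast_prod]
  exact div_le_div_of_nonneg_right (tau_prod_le _ _) (by positivity)

/-- tuples -/
def TT (K N : ℕ) : Finset (Fin K → ℕ) := Fintype.piFinset (fun _ => Icc 1 N)

theorem mem_TT {K N : ℕ} {q : Fin K → ℕ} : q ∈ TT K N ↔ ∀ j, 1 ≤ q j ∧ q j ≤ N := by
  unfold TT
  rw [Fintype.mem_piFinset]
  simp only [mem_Icc]

theorem sum_TT (K N : ℕ) (f : ℕ → ℝ) :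
    ∑ q ∈ TT K N, ∏ j, f (q j) = (∑ n ∈ Icc 1 N, f n) ^ K := by
  unfold TT
  rw [← Finset.prod_univ_sum (fun _ : Fin K => Icc 1 N) (fun _ n => f n), Finset.prod_const,
    Finset.card_univ, Fintype.card_fin]

theorem sum_TT1 (K N : ℕ) :
    ∑ q ∈ TT K N, ∏ j, (tau (q j) / (q j : ℝ)) ≤ (1 + Real.log N) ^ (2 * K) := by
  rw [sum_TT K N (fun n => tau n / (n : ℝ)), pow_mul]
  exact pow_le_pow_left₀ (Finset.sum_nonneg fun n _ => div_nonneg (tau_nonneg n) (by positivity))
    (tau1_sum N) K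

theorem sum_TT2 (K N : ℕ) :
    ∑ q ∈ TT K N, ∏ j, (tau (q j) ^ 2 / (q j : ℝ)) ≤ (1 + Real.log N) ^ (4 * K) := by
  rw [sum_TT K N (fun n => tau n ^ 2 / (n : ℝ)), pow_mul]
  exact pow_le_pow_left₀ (Finset.sum_nonneg fun n _ => div_nonneg (sq_nonneg _) (by positivity))
    (tau2_sum N) K

/-! ### prime powers not coprime to `Q` -/

theorem not_cop (Q X : ℕ) (hQ : 1 ≤ Q) (hX : 1 ≤ X) :
    ∑ n ∈ (Icc 1 X).filter (fun n => ¬ n.Coprime Q), ArithmeticFunction.vonMangoldt n ≤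
      Q.primeFactors.card * Real.log X := by
  have h1 : ∑ n ∈ (Icc 1 X).filter (fun n => ¬ n.Coprime Q), ArithmeticFunction.vonMangoldt n ≤
      ∑ p ∈ Q.primeFactors, ∑ n ∈ (Icc 1 X).filter (fun n => p ∣ n),
        ArithmeticFunction.vonMangoldt n := by
    have e1 : ∀ n ∈ (Icc 1 X).filter (fun n => ¬ n.Coprime Q), ArithmeticFunction.vonMangoldt n ≤
        ∑ p ∈ Q.primeFactors, if p ∣ n then ArithmeticFunction.vonMangoldt n else 0 := by
      intro n hn
      rw [mem_filter] at hn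
      obtain ⟨p, hp, hpn, hpQ⟩ := Nat.Prime.not_coprime_iff_dvd.1 hn.2
      have hpm : p ∈ Q.primeFactors := Nat.mem_primeFactors.2 ⟨hp, hpQ, by omega⟩
      have e2 := single_le_sum (f := fun p => if p ∣ n then ArithmeticFunction.vonMangoldt n else 0)
        (s := Q.primeFactors) (fun i _ => by
        split_ifs
        · exact ArithmeticFunction.vonMangoldt_nonneg
        · exact le_rfl) hpm
      rwa [if_pos hpn] at e2
    refine (sum_le_sum e1).trans ?_
    rw [sum_comm]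
    apply sum_le_sum
    intro p _
    rw [← sum_filter]
    apply sum_le_sum_of_subset_of_nonneg
    · intro n hn
      rw [mem_filter, mem_filter] at hn
      rw [mem_filter]
      exact ⟨hn.1.1, hn.2⟩
    · intro n _ _
      exact ArithmeticFunction.vonMangoldt_nonneg
  refine h1.trans ?_
  have h2 : ∀ p ∈ Q.primeFactors, ∑ n ∈ (Icc 1 X).filter (fun n => p ∣ n),
      ArithmeticFunction.vonMangoldt n ≤ Real.log X := by
    intro p hp
    have hpp := Nat.prime_of_mem_primeFactors hp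
    have e1 : ∑ n ∈ (Icc 1 X).filter (fun n => p ∣ n), ArithmeticFunction.vonMangoldt n ≤
        ∑ m ∈ (Icc 1 (p.log X)).image (p ^ ·), ArithmeticFunction.vonMangoldt m := by
      rw [← Finset.sum_filter_ne_zero]
      apply Finset.sum_le_sum_of_subset_of_nonneg
      · intro n hn
        rw [mem_filter, mem_filter, mem_Icc] at hn
        obtain ⟨⟨⟨h1, h2⟩, h3⟩, h4⟩ := hn
        have h5 := ArithmeticFunction.vonMangoldt_ne_zero_iff.1 h4
        obtain ⟨p', k, hp', hk, rfl⟩ := (isPrimePow_nat_iff _).1 h5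
        have h6 : p = p' := (Nat.prime_dvd_prime_iff_eq hpp hp').1 (hpp.dvd_of_dvd_pow h3)
        rw [← h6] at h2 ⊢
        rw [mem_image]
        exact ⟨k, mem_Icc.2 ⟨hk, Nat.le_log_of_pow_le hpp.one_lt h2⟩, rfl⟩
      · intro n _ _
        exact ArithmeticFunction.vonMangoldt_nonneg
    refine e1.trans ?_
    rw [sum_image fun a _ b _ hab ↦ Nat.pow_right_injective hpp.two_le hab]
    have : ∀ k ∈ Icc 1 (p.log X), ArithmeticFunction.vonMangoldt (p ^ k) = Real.log p := by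
      intro k hk
      rw [mem_Icc] at hk
      rw [ArithmeticFunction.vonMangoldt_apply_pow (by omega),
        ArithmeticFunction.vonMangoldt_apply_prime hpp]
    rw [sum_congr rfl this, sum_const, Nat.card_Icc, Nat.add_sub_cancel, nsmul_eq_mul]
    have h7 : ((p ^ (p.log X) : ℕ) : ℝ) ≤ X := by exact_mod_cast Nat.pow_log_le_self p (by omega)
    have h8 := Real.log_le_log (by exact_mod_cast Nat.pow_pos hpp.pos) h7
    rwa [Nat.cast_pow, Real.log_pow] at h8
  refine (sum_le_sum h2).trans ?_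
  rw [sum_const, nsmul_eq_mul]

/-! ### smooth and rough parts -/

theorem smp_mul_rop {D q : ℕ} (hq : Squarefree q) : smp D q * rop D q = q := by
  unfold smp rop
  have h1 : (q.primeFactors.filter (fun p => D < p)) =
      (q.primeFactors.filter (fun p => ¬ p ≤ D)) := by
    refine Finset.filter_congr fun p _ => ?_
    exact (not_le).symm
  rw [h1, Finset.prod_filter_mul_prod_filter_not, Nat.prod_primeFactors_of_squarefree hq]

theorem sqf_comp {K : ℕ} {q : Fin K → ℕ} (hq : Squarefree (Pr q)) (j : Fin K) :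
    Squarefree (q j) :=
  hq.squarefree_of_dvd (Finset.dvd_prod_of_mem q (mem_univ j))

theorem Pr_sm_mul_ro {K D : ℕ} {q : Fin K → ℕ} (hq : Squarefree (Pr q)) :
    Pr (sm D q) * Pr (ro D q) = Pr q := by
  unfold Pr sm ro
  rw [← Finset.prod_mul_distrib]
  exact Finset.prod_congr rfl fun j _ => smp_mul_rop (sqf_comp hq j)

theorem sm_mul_ro {K D : ℕ} {q : Fin K → ℕ} (hq : Squarefree (Pr q)) (j : Fin K) :
    sm D q j * ro D q j = q j := smp_mul_rop (sqf_comp hq j)

/-! ### the classes -/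

theorem bq_cop {K : ℕ} {h : Fin K → ℤ × ℤ} {W b : ℕ} (H : Hyp h W b) {bq : (Fin K → ℕ) → ℕ}
    (hb : Cls h W b bq) {q : Fin K → ℕ} (hq : Squarefree (rd W * Pr q)) :
    (bq q).Coprime (W * Pr q) := by
  have h1 := (hb q hq (bq q)).1 (Nat.ModEq.refl _)
  refine Nat.Coprime.mul_right ?_ ?_
  · have h2 := Nat.ModEq.gcd_eq h1.1
    have h3 : Nat.gcd b W = 1 := H.bW
    unfold Nat.Coprime
    rw [h2, h3]
  · unfold Pr
    refine Nat.Coprime.prod_right fun j _ => ?_
    by_contra hcon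
    obtain ⟨p, hp, hpb, hpq⟩ := Nat.Prime.not_coprime_iff_dvd.1 hcon
    have h2 : (p : ℤ) ∣ (h j).1 * (bq q : ℤ) + (h j).2 :=
      (Int.natCast_dvd_natCast.2 hpq).trans (h1.2 j)
    have h3 : (p : ℤ) ∣ (h j).2 :=
      (Int.dvd_add_right ((Int.natCast_dvd_natCast.2 hpb).mul_left _)).1 h2
    refine H.h1 p hp ?_ j h3
    intro hpW
    have h4 : p * p ∣ rd W * Pr q :=
      Nat.mul_dvd_mul ((prime_dvd_rd hp).2 hpW) (hpq.trans (Finset.dvd_prod_of_mem q (mem_univ j)))
    have := hq p h4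
    rw [Nat.isUnit_iff] at this
    exact hp.one_lt.ne' this

end Pool.Agent.Y826.ZG.Y202
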