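import Pool.Agent.Y826.ZG.Y202.ZA
import Pool.Agent.H378R2.M7c

/-!
# Project Y826/Z, part Z: the discrepancy of one tuple
-/

set_option autoImplicit false

namespace Pool.Agent.Y826.ZG.Y202

open Finset Pool.Agent.H378R2
open Pool.Agent.Y826.Z hiding Cd dl Lc Du SS Soff Hyp Cls
open Pool.Agent.Y826.ZL (Cd dl)

/-- weighted prime sum with a condition -/
noncomputable def LS (X : ℝ) (P : ℕ → Prop) : ℝ :=
  ∑ n ∈ Icc 1 ⌊3 * X⌋₊, Phi (n / X) * ArithmeticFunction.vonMangoldt n * ind (P n)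

theorem ind_nonneg (P : Prop) : 0 ≤ ind P := by
  unfold ind
  split_ifs <;> norm_num

theorem ind_le_one (P : Prop) : ind P ≤ 1 := by
  unfold ind
  split_ifs <;> norm_num

theorem ind_congr {P Q : Prop} (h : P ↔ Q) : ind P = ind Q := by
  rw [propext h]

theorem EPhi_eq {K : ℕ} {h : Fin K → ℤ × ℤ} {W b : ℕ} {bq : (Fin K → ℕ) → ℕ} (hb : Cls h W b bq)
    {q : Fin K → ℕ} (hq : Squarefree (rd W * Pr q)) (X : ℝ) :
    EPhi X (W * Pr q) (bq q) = LS X (fun n => n ≡ b [MOD W] ∧ Cd h q n) -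
      (1 / ((W * Pr q).totient : ℝ)) * LS X (fun _ => True) := by
  classical
  unfold EPhi LS
  congr 1
  · rw [Finset.sum_filter]
    refine Finset.sum_congr rfl fun n _ => ?_
    rw [← ind_congr (hb q hq n)]
    unfold ind
    by_cases h1 : n ≡ bq q [MOD W * Pr q]
    · rw [if_pos h1, if_pos h1, mul_one]
    · rw [if_neg h1, if_neg h1, mul_zero]
  · congr 1
    refine Finset.sum_congr rfl fun n _ => ?_
    unfold ind
    rw [if_pos trivial, mul_one]

theorem T1_eq {K : ℕ} (h : Fin K → ℤ × ℤ) (W b D : ℕ) (q : Fin K → ℕ) (X : ℝ) :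
    ∑ n ∈ Icc 1 ⌊3 * X⌋₊, Phi (n / X) * ArithmeticFunction.vonMangoldt n * dl h W b D q n =
      LS X (fun n => n ≡ b [MOD W] ∧ Cd h q n) -
      (1 / ((Pr (ro D q)).totient : ℝ)) *
        LS X (fun n => n ≡ b [MOD W] ∧ Cd h (sm D q) n ∧ n.Coprime (Pr (ro D q))) := by
  unfold LS dl
  rw [Finset.mul_sum, ← Finset.sum_sub_distrib]
  refine Finset.sum_congr rfl fun n _ => ?_
  ring

theorem LS_split (X : ℝ) (P R : ℕ → Prop) :
    LS X P = LS X (fun n => P n ∧ R n) + LS X (fun n => P n ∧ ¬ R n) := by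
  classical
  unfold LS
  rw [← Finset.sum_add_distrib]
  refine Finset.sum_congr rfl fun n _ => ?_
  unfold ind
  by_cases h1 : P n
  · by_cases h2 : R n
    · simp [h1, h2]
    · simp [h1, h2]
  · simp [h1]

theorem LS_nonneg (X : ℝ) (P : ℕ → Prop) : 0 ≤ LS X P := by
  unfold LS
  refine Finset.sum_nonneg fun n _ => ?_
  exact mul_nonneg (mul_nonneg (Phi_nonneg _) ArithmeticFunction.vonMangoldt_nonneg) (ind_nonneg _)

theorem LS_noncop {X : ℝ} (hX : 1 ≤ X) {m : ℕ} (hm : 1 ≤ m) (P : ℕ → Prop) :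
    LS X (fun n => P n ∧ ¬ n.Coprime m) ≤ m.primeFactors.card * Real.log (3 * X) := by
  classical
  have h3 : 1 ≤ ⌊3 * X⌋₊ := Nat.le_floor (by push_cast; linarith)
  calc LS X (fun n => P n ∧ ¬ n.Coprime m)
      ≤ ∑ n ∈ (Icc 1 ⌊3 * X⌋₊).filter (fun n => ¬ n.Coprime m),
        ArithmeticFunction.vonMangoldt n := by
        unfold LS
        rw [Finset.sum_filter]
        refine Finset.sum_le_sum fun n _ => ?_
        have h1 := Phi_le_one (n / X)
        have h2 := Phi_nonneg (n / X)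
        have h4 : 0 ≤ ArithmeticFunction.vonMangoldt n := ArithmeticFunction.vonMangoldt_nonneg
        unfold ind
        by_cases hc : n.Coprime m
        · simp [hc]
        · rw [if_pos hc]
          split_ifs
          · nlinarith
          · simp
    _ ≤ m.primeFactors.card * Real.log (⌊3 * X⌋₊ : ℕ) := not_cop m _ hm h3
    _ ≤ _ := by
        refine mul_le_mul_of_nonneg_left ?_ (by positivity)
        refine Real.log_le_log (by exact_mod_cast h3) (Nat.floor_le (by linarith))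

/-- the discrepancy of `q` and the one of its smooth part -/
theorem diff_le {K : ℕ} {h : Fin K → ℤ × ℤ} {W b : ℕ} (D : ℕ)
    {bq : (Fin K → ℕ) → ℕ} (hb : Cls h W b bq) {q : Fin K → ℕ} (hq : Squarefree (rd W * Pr q))
    {X : ℝ} (hX : 1 ≤ X) :
    |EPhi X (W * Pr q) (bq q) -
      ∑ n ∈ Icc 1 ⌊3 * X⌋₊, Phi (n / X) * ArithmeticFunction.vonMangoldt n * dl h W b D q n| ≤
      (1 / ((Pr (ro D q)).totient : ℝ)) * (|EPhi X (W * Pr (sm D q)) (bq (sm D q))| +
        (Pr (ro D q)).primeFactors.card * Real.log (3 * X)) := by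
  have hq1 : Squarefree (Pr q) := hq.squarefree_of_dvd (Dvd.intro_left (rd W) rfl)
  have hmul := Pr_sm_mul_ro (D := D) hq1
  have hs : Squarefree (rd W * Pr (sm D q)) := by
    refine hq.squarefree_of_dvd ?_
    rw [← hmul, ← mul_assoc]
    exact Dvd.intro _ rfl
  have hW : Squarefree ((rd W * Pr (sm D q)) * Pr (ro D q)) := by
    rw [mul_assoc, hmul]
    exact hq
  have hcop := cop_of_sqf2 hW
  have hro0 : Pr (ro D q) ≠ 0 := by
    intro h0
    rw [h0, mul_zero] at hmul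
    exact hq1.ne_zero hmul.symm
  have htot : ((W * Pr q).totient : ℝ) =
      ((W * Pr (sm D q)).totient : ℝ) * ((Pr (ro D q)).totient : ℝ) := by
    rw [← hmul, ← mul_assoc, Nat.totient_mul hcop]
    push_cast
    ring
  have hφr : (0 : ℝ) < ((Pr (ro D q)).totient : ℝ) := by
    exact_mod_cast Nat.totient_pos.2 (Nat.pos_of_ne_zero hro0)
  have e1 := EPhi_eq hb hq X
  have e2 := EPhi_eq hb hs X
  have e3 := T1_eq h W b D q X
  have e4 := LS_split X (fun n => n ≡ b [MOD W] ∧ Cd h (sm D q) n)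
    (fun n => n.Coprime (Pr (ro D q)))
  have e5 : LS X (fun n => (n ≡ b [MOD W] ∧ Cd h (sm D q) n) ∧ n.Coprime (Pr (ro D q))) =
      LS X (fun n => n ≡ b [MOD W] ∧ Cd h (sm D q) n ∧ n.Coprime (Pr (ro D q))) := by
    unfold LS
    refine Finset.sum_congr rfl fun n _ => ?_
    rw [ind_congr (and_assoc)]
  have h6 := LS_noncop hX (Nat.one_le_iff_ne_zero.2 hro0)
    (fun n => n ≡ b [MOD W] ∧ Cd h (sm D q) n)
  have h7 := LS_nonneg X (fun n => (n ≡ b [MOD W] ∧ Cd h (sm D q) n) ∧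
    ¬ n.Coprime (Pr (ro D q)))
  set G := LS X (fun n => (n ≡ b [MOD W] ∧ Cd h (sm D q) n) ∧ ¬ n.Coprime (Pr (ro D q)))
    with hG
  have key : EPhi X (W * Pr q) (bq q) -
      ∑ n ∈ Icc 1 ⌊3 * X⌋₊, Phi (n / X) * ArithmeticFunction.vonMangoldt n * dl h W b D q n =
      (1 / ((Pr (ro D q)).totient : ℝ)) * (EPhi X (W * Pr (sm D q)) (bq (sm D q)) - G) := by
    rw [e1, e3, e2, e4, e5, htot]
    ring
  rw [key, abs_mul, abs_of_pos (by positivity)]
  refine mul_le_mul_of_nonneg_left ?_ (by positivity)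
  refine (abs_sub _ _).trans ?_
  rw [abs_of_nonneg h7]
  linarith

theorem card_class (M Q b' : ℕ) (hQ : 1 ≤ Q) :
    ((Icc 1 M).filter (fun n => n ≡ b' [MOD Q])).card ≤ M / Q + 1 := by
  calc _ ≤ (range (M / Q + 1)).card := by
        refine Finset.card_le_card_of_injOn (fun n => n / Q) ?_ ?_
        · intro n hn
          rw [mem_coe, mem_filter, mem_Icc] at hn
          rw [mem_coe, mem_range]
          have := Nat.div_le_div_right (c := Q) hn.1.2
          dsimp only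
          omega
        · intro n hn m hm hnm
          rw [mem_coe, mem_filter, mem_Icc] at hn hm
          dsimp only at hnm
          have h1 : n % Q = m % Q := hn.2.trans hm.2.symm
          rw [← Nat.div_add_mod n Q, ← Nat.div_add_mod m Q, hnm, h1]
    _ = _ := card_range _

theorem EPhi_triv {X : ℝ} (hX : 1 ≤ X) {Q : ℕ} (hQ : 1 ≤ Q) (hQX : (Q : ℝ) ≤ X) (b' : ℕ) :
    |EPhi X Q b'| ≤ 4 * X * Real.log (3 * X) / (Q.totient : ℝ) := by
  classical
  have hφ : (0 : ℝ) < Q.totient := by exact_mod_cast Nat.totient_pos.2 hQ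
  have hφQ : (Q.totient : ℝ) ≤ Q := by exact_mod_cast Nat.totient_le Q
  have hQ0 : (0 : ℝ) < Q := by exact_mod_cast hQ
  have hlog : 0 ≤ Real.log (3 * X) := Real.log_nonneg (by linarith)
  have hterm : ∀ n ∈ Icc 1 ⌊3 * X⌋₊,
      Phi (n / X) * ArithmeticFunction.vonMangoldt n ≤ 1 / 2 * Real.log (3 * X) := by
    intro n hn
    rw [mem_Icc] at hn
    have h1 := Phi_le_half (n / X)
    have h2 := Phi_nonneg (n / X)
    have h4 : ArithmeticFunction.vonMangoldt n ≤ Real.log (3 * X) := by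
      refine ArithmeticFunction.vonMangoldt_le_log.trans ?_
      refine Real.log_le_log (by exact_mod_cast hn.1) ?_
      exact (Nat.le_floor_iff (by linarith)).1 hn.2
    exact mul_le_mul h1 h4 ArithmeticFunction.vonMangoldt_nonneg (by norm_num)
  have hnn : ∀ n : ℕ, 0 ≤ Phi (n / X) * ArithmeticFunction.vonMangoldt n := fun n =>
    mul_nonneg (Phi_nonneg _) ArithmeticFunction.vonMangoldt_nonneg
  have hfl : ((⌊3 * X⌋₊ : ℕ) : ℝ) ≤ 3 * X := Nat.floor_le (by linarith)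
  have h1 : ∑ n ∈ (Icc 1 ⌊3 * X⌋₊).filter (fun n => n ≡ b' [MOD Q]),
      Phi (n / X) * ArithmeticFunction.vonMangoldt n ≤ 2 * X * Real.log (3 * X) / Q.totient := by
    calc _ ≤ ∑ n ∈ (Icc 1 ⌊3 * X⌋₊).filter (fun n => n ≡ b' [MOD Q]),
          (1 / 2 * Real.log (3 * X)) :=
          Finset.sum_le_sum fun n hn => hterm n (mem_filter.1 hn).1
      _ = (((Icc 1 ⌊3 * X⌋₊).filter (fun n => n ≡ b' [MOD Q])).card : ℝ) *
          (1 / 2 * Real.log (3 * X)) := by rw [Finset.sum_const, nsmul_eq_mul]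
      _ ≤ (4 * X / Q) * (1 / 2 * Real.log (3 * X)) := by
          refine mul_le_mul_of_nonneg_right ?_ (by positivity)
          have h2 := card_class ⌊3 * X⌋₊ Q b' hQ
          have h3 : ((⌊3 * X⌋₊ / Q + 1 : ℕ) : ℝ) ≤ 4 * X / Q := by
            push_cast
            have h4 : ((⌊3 * X⌋₊ / Q : ℕ) : ℝ) ≤ ((⌊3 * X⌋₊ : ℕ) : ℝ) / Q := Nat.cast_div_le
            have h5 : ((⌊3 * X⌋₊ : ℕ) : ℝ) / Q ≤ 3 * X / Q :=
              div_le_div_of_nonneg_right hfl hQ0.le
            have h6 : 1 ≤ X / Q := (one_le_div hQ0).2 hQX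
            have h7 : 4 * X / Q = 3 * X / Q + X / Q := by ring
            linarith
          exact le_trans (by exact_mod_cast h2) h3
      _ = 2 * X * Real.log (3 * X) / Q := by ring
      _ ≤ _ := div_le_div_of_nonneg_left (by positivity) hφ hφQ
  have h2 : (1 / (Q.totient : ℝ)) * ∑ n ∈ Icc 1 ⌊3 * X⌋₊,
      Phi (n / X) * ArithmeticFunction.vonMangoldt n ≤ 2 * X * Real.log (3 * X) / Q.totient := by
    have h3 : ∑ n ∈ Icc 1 ⌊3 * X⌋₊, Phi (n / X) * ArithmeticFunction.vonMangoldt n ≤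
        2 * X * Real.log (3 * X) := by
      calc _ ≤ ∑ n ∈ Icc 1 ⌊3 * X⌋₊, (1 / 2 * Real.log (3 * X)) :=
            Finset.sum_le_sum fun n hn => hterm n hn
        _ = ((⌊3 * X⌋₊ : ℕ) : ℝ) * (1 / 2 * Real.log (3 * X)) := by
            rw [Finset.sum_const, nsmul_eq_mul, Nat.card_Icc, Nat.add_sub_cancel]
        _ ≤ (3 * X) * (1 / 2 * Real.log (3 * X)) :=
            mul_le_mul_of_nonneg_right hfl (by positivity)
        _ ≤ _ := by nlinarith
    calc _ ≤ (1 / (Q.totient : ℝ)) * (2 * X * Real.log (3 * X)) :=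
          mul_le_mul_of_nonneg_left h3 (by positivity)
      _ = _ := by ring
  have h3 : 0 ≤ ∑ n ∈ (Icc 1 ⌊3 * X⌋₊).filter (fun n => n ≡ b' [MOD Q]),
      Phi (n / X) * ArithmeticFunction.vonMangoldt n := Finset.sum_nonneg fun n _ => hnn n
  have h4 : 0 ≤ (1 / (Q.totient : ℝ)) * ∑ n ∈ Icc 1 ⌊3 * X⌋₊,
      Phi (n / X) * ArithmeticFunction.vonMangoldt n :=
    mul_nonneg (by positivity) (Finset.sum_nonneg fun n _ => hnn n)
  have h5 : 4 * X * Real.log (3 * X) / (Q.totient : ℝ) =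
      2 * X * Real.log (3 * X) / Q.totient + 2 * X * Real.log (3 * X) / Q.totient := by ring
  unfold EPhi
  rw [abs_le, h5]
  constructor <;> linarith

end Pool.Agent.Y826.ZG.Y202
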