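import Pool.Agent.Y826.ZG.Y202.ZB
import Pool.Agent.H95R2.BG.S2

/-!
# Project Y826/Z, part Z: sums over the tuples
-/

set_option autoImplicit false

namespace Pool.Agent.Y826.ZG.Y202

open Finset Pool.Agent.H378R2
open Pool.Agent.Y826.Z hiding Cd dl Lc Du SS Soff Hyp Cls
open Pool.Agent.Y826.ZL (Cd dl)

theorem sqf_right {W m : ℕ} (h : Squarefree (rd W * m)) : Squarefree m :=
  h.squarefree_of_dvd (Dvd.intro_left (rd W) rfl)

theorem comp_pos {K : ℕ} {q : Fin K → ℕ} (hq : Squarefree (Pr q)) (j : Fin K) : 1 ≤ q j :=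
  Nat.one_le_iff_ne_zero.2 (sqf_comp hq j).ne_zero

theorem comp_le {K : ℕ} {q : Fin K → ℕ} (hq : Squarefree (Pr q)) (j : Fin K) : q j ≤ Pr q :=
  Nat.le_of_dvd (Nat.pos_of_ne_zero hq.ne_zero) (Finset.dvd_prod_of_mem q (mem_univ j))

theorem tot_mul_ge {W m : ℕ} (hW : 0 < W) (hm : m ≠ 0) :
    1 / ((W * m).totient : ℝ) ≤ 1 / (m.totient : ℝ) := by
  have h1 : 0 < m.totient := Nat.totient_pos.2 (Nat.pos_of_ne_zero hm)
  have h2 : 0 < (W * m).totient :=
    Nat.totient_pos.2 (Nat.mul_pos hW (Nat.pos_of_ne_zero hm))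
  have h3 : m.totient ≤ (W * m).totient :=
    Nat.le_of_dvd h2 (Nat.totient_dvd_of_dvd (Dvd.intro_left W rfl))
  exact one_div_le_one_div_of_le (by exact_mod_cast h1) (by exact_mod_cast h3)

/-- tuples with many prime factors -/
theorem sum_rough {K W : ℕ} (hW : 0 < W) {X : ℝ} (hX : 1 ≤ X) (bq : (Fin K → ℕ) → ℕ)
    {lam : ℝ} (hlam : 0 < lam) (S : Finset (Fin K → ℕ))
    (hS : ∀ q ∈ S, Squarefree (rd W * Pr q) ∧ ((W * Pr q : ℕ) : ℝ) ≤ X ∧ lam ≤ ∏ j, tau (q j)) :
    ∑ q ∈ S, |EPhi X (W * Pr q) (bq q)| ≤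
      4 * X * Real.log (3 * X) / lam * (1 + Real.log X) ^ (4 * K) := by
  classical
  have hlog : 0 ≤ Real.log (3 * X) := Real.log_nonneg (by linarith)
  have hc : 0 ≤ 4 * X * Real.log (3 * X) / lam := by positivity
  have hN1 : 1 ≤ ⌊X⌋₊ := Nat.le_floor (by push_cast; exact hX)
  calc ∑ q ∈ S, |EPhi X (W * Pr q) (bq q)|
      ≤ ∑ q ∈ S, 4 * X * Real.log (3 * X) / lam * ∏ j, (tau (q j) ^ 2 / (q j : ℝ)) := by
        refine Finset.sum_le_sum fun q hq => ?_
        obtain ⟨h1, h2, h3⟩ := hS q hq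
        have h0 : Pr q ≠ 0 := (sqf_right h1).ne_zero
        have hQ : 1 ≤ W * Pr q := Nat.mul_pos hW (Nat.pos_of_ne_zero h0)
        have hP : 0 ≤ ∏ j, (tau (q j) / (q j : ℝ)) :=
          Finset.prod_nonneg fun j _ => div_nonneg (tau_nonneg _) (by positivity)
        calc |EPhi X (W * Pr q) (bq q)| ≤ 4 * X * Real.log (3 * X) / ((W * Pr q).totient : ℝ) :=
              EPhi_triv hX hQ h2 _
          _ = 4 * X * Real.log (3 * X) * (1 / ((W * Pr q).totient : ℝ)) := by ring
          _ ≤ 4 * X * Real.log (3 * X) * ∏ j, (tau (q j) / (q j : ℝ)) := by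
              refine mul_le_mul_of_nonneg_left ?_ (by positivity)
              exact (tot_mul_ge hW h0).trans (inv_tot_Pr_le h0)
          _ ≤ 4 * X * Real.log (3 * X) * (((∏ j, tau (q j)) / lam) *
                ∏ j, (tau (q j) / (q j : ℝ))) := by
              refine mul_le_mul_of_nonneg_left ?_ (by positivity)
              have h4 : 1 ≤ (∏ j, tau (q j)) / lam := (one_le_div hlam).2 h3
              nlinarith
          _ = _ := by
              have h5 : ∏ j, (tau (q j) ^ 2 / (q j : ℝ)) =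
                  (∏ j, tau (q j)) * ∏ j, (tau (q j) / (q j : ℝ)) := by
                rw [← Finset.prod_mul_distrib]
                refine Finset.prod_congr rfl fun j _ => ?_
                ring
              rw [h5]
              ring
    _ = 4 * X * Real.log (3 * X) / lam * ∑ q ∈ S, ∏ j, (tau (q j) ^ 2 / (q j : ℝ)) := by
        rw [Finset.mul_sum]
    _ ≤ 4 * X * Real.log (3 * X) / lam *
        ∑ q ∈ TT K ⌊X⌋₊, ∏ j, (tau (q j) ^ 2 / (q j : ℝ)) := by
        refine mul_le_mul_of_nonneg_left ?_ hc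
        refine Finset.sum_le_sum_of_subset_of_nonneg ?_ fun q _ _ =>
          Finset.prod_nonneg fun j _ => div_nonneg (sq_nonneg _) (by positivity)
        intro q hq
        obtain ⟨h1, h2, h3⟩ := hS q hq
        rw [mem_TT]
        intro j
        refine ⟨comp_pos (sqf_right h1) j, ?_⟩
        have h4 := comp_le (sqf_right h1) j
        have h5 : Pr q ≤ W * Pr q := Nat.le_mul_of_pos_left _ hW
        exact Nat.le_floor (le_trans (by exact_mod_cast h4.trans h5) h2)
    _ ≤ _ := by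
        refine mul_le_mul_of_nonneg_left ?_ hc
        refine (sum_TT2 K ⌊X⌋₊).trans ?_
        have h6 : Real.log (⌊X⌋₊ : ℕ) ≤ Real.log X :=
          Real.log_le_log (by exact_mod_cast hN1) (Nat.floor_le (by linarith))
        have h7 : 0 ≤ Real.log (⌊X⌋₊ : ℕ) := Real.log_natCast_nonneg _
        exact pow_le_pow_left₀ (by linarith) (by linarith) _

/-- separating the rough and the smooth parts -/
theorem sum_sep {K D N : ℕ} (S Ss : Finset (Fin K → ℕ)) (f g : (Fin K → ℕ) → ℝ)
    (hf : ∀ r, 0 ≤ f r) (hg : ∀ s, 0 ≤ g s)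
    (hS : ∀ q ∈ S, Squarefree (Pr q) ∧ (∀ j, q j ≤ N) ∧ sm D q ∈ Ss) :
    ∑ q ∈ S, f (ro D q) * g (sm D q) ≤ (∑ r ∈ TT K N, f r) * ∑ s ∈ Ss, g s := by
  classical
  calc ∑ q ∈ S, f (ro D q) * g (sm D q)
      = ∑ x ∈ S.image (fun q => (ro D q, sm D q)), f x.1 * g x.2 := by
        rw [Finset.sum_image]
        intro q hq q' hq' hqq
        have h1 := (hS q (Finset.mem_coe.1 hq)).1
        have h2 := (hS q' (Finset.mem_coe.1 hq')).1
        dsimp only at hqq
        rw [Prod.mk.injEq] at hqq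
        funext j
        rw [← sm_mul_ro (D := D) h1 j, ← sm_mul_ro (D := D) h2 j, hqq.1, hqq.2]
    _ ≤ ∑ x ∈ TT K N ×ˢ Ss, f x.1 * g x.2 := by
        refine Finset.sum_le_sum_of_subset_of_nonneg ?_ fun x _ _ => mul_nonneg (hf _) (hg _)
        intro x hx
        rw [mem_image] at hx
        obtain ⟨q, hq, rfl⟩ := hx
        obtain ⟨h1, h2, h3⟩ := hS q hq
        rw [mem_product]
        refine ⟨mem_TT.2 fun j => ?_, h3⟩
        have h4 := sm_mul_ro (D := D) h1 j
        have h5 := comp_pos h1 j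
        dsimp only
        constructor
        · rcases Nat.eq_zero_or_pos (ro D q j) with h | h
          · rw [h, mul_zero] at h4
            omega
          · exact h
        · refine le_trans (Nat.le_of_dvd (by omega) ?_) (h2 j)
          rw [← h4]
          exact Dvd.intro_left _ rfl
    _ = _ := by rw [Finset.sum_mul_sum, Finset.sum_product]

/-- grouping the smooth tuples by their product -/
theorem sum_group {K W M : ℕ} {X : ℝ} (bq : (Fin K → ℕ) → ℕ) (B : ℕ → ℕ)
    (hB : ∀ q, 1 ≤ q → ∀ b' : ℕ, b'.Coprime (W * q) →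
      |EPhi X (W * q) b'| ≤ |EPhi X (W * q) (B q)|)
    (Ss : Finset (Fin K → ℕ)) (hSs : ∀ s ∈ Ss, Squarefree (rd W * Pr s) ∧ Pr s ≤ M ∧
      (bq s).Coprime (W * Pr s)) :
    ∑ s ∈ Ss, |EPhi X (W * Pr s) (bq s)| ≤
      ∑ m ∈ (Icc 1 M).filter (fun m => Squarefree m),
        (m.divisors.card : ℝ) ^ K * |EPhi X (W * m) (B m)| := by
  classical
  have hmem : ∀ s ∈ Ss, Pr s ∈ (Icc 1 M).filter (fun m => Squarefree m) := by
    intro s hs
    obtain ⟨h1, h2, h3⟩ := hSs s hs
    rw [mem_filter, mem_Icc]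
    exact ⟨⟨Nat.one_le_iff_ne_zero.2 (sqf_right h1).ne_zero, h2⟩, sqf_right h1⟩
  calc ∑ s ∈ Ss, |EPhi X (W * Pr s) (bq s)| ≤ ∑ s ∈ Ss, |EPhi X (W * Pr s) (B (Pr s))| := by
        refine Finset.sum_le_sum fun s hs => ?_
        obtain ⟨h1, h2, h3⟩ := hSs s hs
        exact hB _ (Nat.one_le_iff_ne_zero.2 (sqf_right h1).ne_zero) _ h3
    _ = ∑ m ∈ (Icc 1 M).filter (fun m => Squarefree m), ∑ s ∈ Ss.filter (fun s => Pr s = m),
        |EPhi X (W * Pr s) (B (Pr s))| := (Finset.sum_fiberwise_of_maps_to hmem _).symm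
    _ ≤ _ := by
        refine Finset.sum_le_sum fun m hm => ?_
        have hm0 : m ≠ 0 := ((mem_filter.1 hm).2).ne_zero
        calc ∑ s ∈ Ss.filter (fun s => Pr s = m), |EPhi X (W * Pr s) (B (Pr s))|
            = ∑ s ∈ Ss.filter (fun s => Pr s = m), |EPhi X (W * m) (B m)| := by
              refine Finset.sum_congr rfl fun s hs => ?_
              rw [(mem_filter.1 hs).2]
          _ = ((Ss.filter (fun s => Pr s = m)).card : ℝ) * |EPhi X (W * m) (B m)| := by
              rw [Finset.sum_const, nsmul_eq_mul]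
          _ ≤ _ := by
              refine mul_le_mul_of_nonneg_right ?_ (abs_nonneg _)
              have h1 : (Ss.filter (fun s => Pr s = m)).card ≤
                  (Fintype.piFinset (fun _ : Fin K => m.divisors)).card := by
                refine Finset.card_le_card fun s hs => ?_
                rw [Fintype.mem_piFinset]
                intro j
                rw [Nat.mem_divisors]
                refine ⟨?_, hm0⟩
                rw [← (mem_filter.1 hs).2]
                exact Finset.dvd_prod_of_mem s (mem_univ j)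
              have h2 : (Fintype.piFinset (fun _ : Fin K => m.divisors)).card =
                  m.divisors.card ^ K := by
                rw [Fintype.card_piFinset, Finset.prod_const, Finset.card_univ, Fintype.card_fin]
              rw [h2] at h1
              exact_mod_cast h1

theorem card_TT (K N : ℕ) : (TT K N).card = N ^ K := by
  unfold TT
  rw [Fintype.card_piFinset, Finset.prod_const, Finset.card_univ, Fintype.card_fin, Nat.card_Icc,
    Nat.add_sub_cancel]

theorem Pr_le_pow {K N : ℕ} {q : Fin K → ℕ} (hq : ∀ j, q j ≤ N) : Pr q ≤ N ^ K := by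
  unfold Pr
  calc ∏ j, q j ≤ ∏ _j : Fin K, N := Finset.prod_le_prod' fun j _ => hq j
    _ = N ^ K := by rw [Finset.prod_const, Finset.card_univ, Fintype.card_fin]

/-- the sum of the right hand sides of `diff_le` -/
theorem sum_diff {K W b D E M : ℕ} {h : Fin K → ℤ × ℤ} (H : Hyp h W b) {X : ℝ} (hX : 1 ≤ X)
    {bq : (Fin K → ℕ) → ℕ} (hb : Cls h W b bq) (B : ℕ → ℕ)
    (hB : ∀ q, 1 ≤ q → ∀ b' : ℕ, b'.Coprime (W * q) →
      |EPhi X (W * q) b'| ≤ |EPhi X (W * q) (B q)|)
    (hEM : E ^ K ≤ M) (S : Finset (Fin K → ℕ))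
    (hS : ∀ q ∈ S, Squarefree (rd W * Pr q) ∧ ((W * Pr q : ℕ) : ℝ) ≤ X ∧ Pr (sm D q) ≤ E) :
    ∑ q ∈ S, (1 / ((Pr (ro D q)).totient : ℝ)) * (|EPhi X (W * Pr (sm D q)) (bq (sm D q))| +
        (Pr (ro D q)).primeFactors.card * Real.log (3 * X)) ≤
      (1 + Real.log X) ^ (2 * K) * (∑ m ∈ (Icc 1 M).filter (fun m => Squarefree m),
        (m.divisors.card : ℝ) ^ K * |EPhi X (W * m) (B m)|) +
      (1 + Real.log X) ^ (4 * K) * (M * Real.log (3 * X)) := by
  classical
  have hlog : 0 ≤ Real.log (3 * X) := Real.log_nonneg (by linarith)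
  have hN1 : 1 ≤ ⌊X⌋₊ := Nat.le_floor (by push_cast; exact hX)
  set Ss : Finset (Fin K → ℕ) := (TT K E).filter (fun s => Squarefree (rd W * Pr s)) with hSs
  have hfl : Real.log (⌊X⌋₊ : ℕ) ≤ Real.log X :=
    Real.log_le_log (by exact_mod_cast hN1) (Nat.floor_le (by linarith))
  have hfl0 : 0 ≤ Real.log (⌊X⌋₊ : ℕ) := Real.log_natCast_nonneg _
  have hsS : ∀ q ∈ S, Squarefree (Pr q) ∧ (∀ j, q j ≤ ⌊X⌋₊) ∧ sm D q ∈ Ss := by
    intro q hq
    obtain ⟨h1, h2, h3⟩ := hS q hq
    have h4 := sqf_right h1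
    refine ⟨h4, fun j => ?_, ?_⟩
    · have h5 := comp_le h4 j
      have h6 : Pr q ≤ W * Pr q := Nat.le_mul_of_pos_left _ H.wpos
      exact Nat.le_floor (le_trans (by exact_mod_cast h5.trans h6) h2)
    · have hmul := Pr_sm_mul_ro (D := D) h4
      have h5 : Squarefree (Pr (sm D q)) := by
        refine h4.squarefree_of_dvd ?_
        rw [← hmul]
        exact Dvd.intro _ rfl
      rw [hSs, mem_filter, mem_TT]
      refine ⟨fun j => ⟨comp_pos h5 j, (comp_le h5 j).trans h3⟩, ?_⟩
      refine h1.squarefree_of_dvd ?_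
      rw [← hmul, ← mul_assoc]
      exact Dvd.intro _ rfl
  have hf1 : ∀ r : Fin K → ℕ, 0 ≤ ∏ j, (tau (r j) / (r j : ℝ)) := fun r =>
    Finset.prod_nonneg fun j _ => div_nonneg (tau_nonneg _) (by positivity)
  have hf2 : ∀ r : Fin K → ℕ, 0 ≤ ∏ j, (tau (r j) ^ 2 / (r j : ℝ)) := fun r =>
    Finset.prod_nonneg fun j _ => div_nonneg (sq_nonneg _) (by positivity)
  calc ∑ q ∈ S, (1 / ((Pr (ro D q)).totient : ℝ)) * (|EPhi X (W * Pr (sm D q)) (bq (sm D q))| +
        (Pr (ro D q)).primeFactors.card * Real.log (3 * X))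
      ≤ ∑ q ∈ S, ((fun r : Fin K → ℕ => ∏ j, (tau (r j) / (r j : ℝ))) (ro D q) *
          (fun s : Fin K → ℕ => |EPhi X (W * Pr s) (bq s)|) (sm D q) +
        (fun r : Fin K → ℕ => ∏ j, (tau (r j) ^ 2 / (r j : ℝ))) (ro D q) *
          (fun _ : Fin K → ℕ => Real.log (3 * X)) (sm D q)) := by
        refine Finset.sum_le_sum fun q hq => ?_
        obtain ⟨h1, h2, h3⟩ := hS q hq
        have h4 := sqf_right h1
        have hmul := Pr_sm_mul_ro (D := D) h4
        have h0 : Pr (ro D q) ≠ 0 := by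
          intro h0
          rw [h0, mul_zero] at hmul
          exact h4.ne_zero hmul.symm
        have h5 := inv_tot_Pr_le h0
        dsimp only
        rw [mul_add]
        refine add_le_add (mul_le_mul_of_nonneg_right h5 (abs_nonneg _)) ?_
        rw [← mul_assoc]
        refine mul_le_mul_of_nonneg_right ?_ hlog
        have h6 : ((Pr (ro D q)).primeFactors.card : ℝ) ≤ ∏ j, tau (ro D q j) := by
          refine le_trans ?_ (tau_prod_le _ _)
          unfold tau
          have h7 : (Pr (ro D q)).primeFactors ⊆ (Pr (ro D q)).divisors := by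
            intro p hp
            rw [Nat.mem_primeFactors] at hp
            exact Nat.mem_divisors.2 ⟨hp.2.1, hp.2.2⟩
          exact_mod_cast Finset.card_le_card h7
        have h8 : ∏ j, (tau (ro D q j) ^ 2 / (ro D q j : ℝ)) =
            (∏ j, (tau (ro D q j) / (ro D q j : ℝ))) * ∏ j, tau (ro D q j) := by
          rw [← Finset.prod_mul_distrib]
          refine Finset.prod_congr rfl fun j _ => ?_
          ring
        rw [h8]
        exact mul_le_mul h5 h6 (by positivity) (hf1 _)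
    _ = ∑ q ∈ S, ((fun r : Fin K → ℕ => ∏ j, (tau (r j) / (r j : ℝ))) (ro D q) *
          (fun s : Fin K → ℕ => |EPhi X (W * Pr s) (bq s)|) (sm D q)) +
        ∑ q ∈ S, ((fun r : Fin K → ℕ => ∏ j, (tau (r j) ^ 2 / (r j : ℝ))) (ro D q) *
          (fun _ : Fin K → ℕ => Real.log (3 * X)) (sm D q)) := Finset.sum_add_distrib
    _ ≤ (∑ r ∈ TT K ⌊X⌋₊, ∏ j, (tau (r j) / (r j : ℝ))) *
          (∑ s ∈ Ss, |EPhi X (W * Pr s) (bq s)|) +
        (∑ r ∈ TT K ⌊X⌋₊, ∏ j, (tau (r j) ^ 2 / (r j : ℝ))) *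
          (∑ s ∈ Ss, Real.log (3 * X)) :=
        add_le_add (sum_sep S Ss (fun r : Fin K → ℕ => ∏ j, (tau (r j) / (r j : ℝ)))
            (fun s : Fin K → ℕ => |EPhi X (W * Pr s) (bq s)|) hf1 (fun s => abs_nonneg _) hsS)
          (sum_sep S Ss (fun r : Fin K → ℕ => ∏ j, (tau (r j) ^ 2 / (r j : ℝ)))
            (fun _ : Fin K → ℕ => Real.log (3 * X)) hf2 (fun s => hlog) hsS)
    _ ≤ _ := by
        refine add_le_add ?_ ?_
        · refine mul_le_mul ?_ ?_ (Finset.sum_nonneg fun _ _ => abs_nonneg _) ?_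
          · refine (sum_TT1 K ⌊X⌋₊).trans ?_
            exact pow_le_pow_left₀ (by linarith) (by linarith) _
          · refine sum_group bq B hB Ss fun s hs => ?_
            rw [hSs, mem_filter, mem_TT] at hs
            exact ⟨hs.2, (Pr_le_pow fun j => (hs.1 j).2).trans hEM, bq_cop H hb hs.2⟩
          · exact pow_nonneg (by linarith) _
        · refine mul_le_mul ?_ ?_ (Finset.sum_nonneg fun _ _ => hlog) ?_
          · refine (sum_TT2 K ⌊X⌋₊).trans ?_
            exact pow_le_pow_left₀ (by linarith) (by linarith) _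
          · rw [Finset.sum_const, nsmul_eq_mul]
            refine mul_le_mul_of_nonneg_right ?_ hlog
            have h1 : Ss.card ≤ M := by
              refine le_trans (Finset.card_le_card (Finset.filter_subset _ _)) ?_
              rw [card_TT]
              exact hEM
            exact_mod_cast h1
          · exact pow_nonneg (by linarith) _

end Pool.Agent.Y826.ZG.Y202
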